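import Mathlib

open Finset

namespace Pool.Agent.Results.MP_1235ca_co.FullAnswer

/-- `A` is a Tesler matrix with hook sums `α`: it is upper triangular with nonnegative integer
entries, and for every `i` the sum of row `i` from the diagonal rightwards minus the sum of the
part of column `i` strictly above the diagonal equals `α i`. -/
def IsTesler {n : ℕ} (α : Fin n → ℕ) (A : Matrix (Fin n) (Fin n) ℕ) : Prop :=
  (∀ i j, j < i → A i j = 0) ∧
    ∀ i, ((∑ j ∈ Finset.Ici i, A i j : ℕ) : ℤ) - ((∑ j ∈ Finset.Iio i, A j i : ℕ) : ℤ) = (α i : ℤ)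

/-- The number of Tesler matrices with hook sums `α`. -/
noncomputable def T {n : ℕ} (α : Fin n → ℕ) : ℕ := {A | IsTesler α A}.ncard

lemma isTesler_iff {n : ℕ} (α : Fin n → ℕ) (A : Matrix (Fin n) (Fin n) ℕ) :
    IsTesler α A ↔ (∀ i j, j < i → A i j = 0) ∧
      ∀ i, (∑ j, if i ≤ j then A i j else 0) = α i + ∑ j, if j < i then A j i else 0 := by
  unfold IsTesler
  refine and_congr Iff.rfl (forall_congr' fun i => ?_)
  rw [← Finset.sum_filter, ← Finset.sum_filter]
  have h1 : Finset.univ.filter (fun j => i ≤ j) = Finset.Ici i := by ext; simp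
  have h2 : Finset.univ.filter (fun j => j < i) = Finset.Iio i := by ext; simp
  rw [h1, h2]
  omega

/-- Add a last row and column. -/
def extM {n : ℕ} (c : ℕ) (A : Matrix (Fin n) (Fin n) ℕ) (b : Fin n → ℕ) :
    Matrix (Fin (n + 1)) (Fin (n + 1)) ℕ :=
  fun i j => Fin.snoc (α := fun _ => Fin (n + 1) → ℕ)
    (fun i' => Fin.snoc (α := fun _ => ℕ) (fun j' => if i' = j' then A i' j' - b i' else A i' j') (b i'))
    (Fin.snoc (α := fun _ => ℕ) (fun _ => 0) (c + ∑ k, b k)) i j

section extM
variable {n : ℕ} (c : ℕ) (A : Matrix (Fin n) (Fin n) ℕ) (b : Fin n → ℕ)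

@[simp] lemma extM_cc (i j : Fin n) :
    extM c A b i.castSucc j.castSucc = if i = j then A i j - b i else A i j := by
  simp [extM]
@[simp] lemma extM_cl (i : Fin n) : extM c A b i.castSucc (Fin.last n) = b i := by
  simp [extM]
@[simp] lemma extM_lc (j : Fin n) : extM c A b (Fin.last n) j.castSucc = 0 := by
  simp [extM]
@[simp] lemma extM_ll : extM c A b (Fin.last n) (Fin.last n) = c + ∑ k, b k := by
  simp [extM]
end extM

lemma extM_isTesler {n : ℕ} {α : Fin (n + 1) → ℕ} {A : Matrix (Fin n) (Fin n) ℕ} {b : Fin n → ℕ}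
    (hA : IsTesler (fun i => α i.castSucc) A) (hb : ∀ i, b i ≤ A i i) :
    IsTesler α (extM (α (Fin.last n)) A b) := by
  rw [isTesler_iff] at hA ⊢
  obtain ⟨h1, h2⟩ := hA
  refine ⟨?_, ?_⟩
  · intro i j hij
    induction i using Fin.lastCases with
    | last =>
      induction j using Fin.lastCases with
      | last => exact absurd hij (lt_irrefl _)
      | cast j => simp
    | cast i =>
      induction j using Fin.lastCases with
      | last => exact absurd hij (by simp [Fin.le_last])
      | cast j =>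
        have hij' : j < i := by simpa using hij
        rw [extM_cc, if_neg (ne_of_gt hij'), h1 i j hij']
  · intro i
    induction i using Fin.lastCases with
    | last =>
      rw [Fin.sum_univ_castSucc, Fin.sum_univ_castSucc]
      simp [Fin.castSucc_lt_last]
    | cast i =>
      rw [Fin.sum_univ_castSucc, Fin.sum_univ_castSucc]
      have e1 : (∑ j : Fin n, if i.castSucc ≤ j.castSucc then
          extM (α (Fin.last n)) A b i.castSucc j.castSucc else 0) + b i =
          ∑ j : Fin n, if i ≤ j then A i j else 0 := by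
        rw [← Finset.add_sum_erase Finset.univ _ (Finset.mem_univ i),
          ← Finset.add_sum_erase Finset.univ (fun j => if i ≤ j then A i j else 0)
            (Finset.mem_univ i)]
        have e3 : ∑ j ∈ Finset.univ.erase i, (if i.castSucc ≤ j.castSucc then
          extM (α (Fin.last n)) A b i.castSucc j.castSucc else 0) =
          ∑ j ∈ Finset.univ.erase i, (if i ≤ j then A i j else 0) := by
          apply Finset.sum_congr rfl
          intro j hj
          have hne : i ≠ j := (Finset.ne_of_mem_erase hj).symm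
          simp [hne]
        rw [e3]
        have := hb i
        simp only [le_refl, if_true, extM_cc]
        omega
      have e2 : (∑ j : Fin n, if j.castSucc < i.castSucc then
          extM (α (Fin.last n)) A b j.castSucc i.castSucc else 0) =
          ∑ j : Fin n, if j < i then A j i else 0 := by
        apply Finset.sum_congr rfl
        intro j _
        by_cases hji : j < i
        · simp [hji, ne_of_lt hji]
        · simp [hji]
      rw [e2]
      have e4 : ¬ (Fin.last n < i.castSucc) := by simp [Fin.le_last]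
      rw [if_neg e4]
      have e5 : i.castSucc ≤ Fin.last n := Fin.le_last _
      rw [if_pos e5, extM_cl, e1, h2 i]
      rfl

/-- Remove the last row and column. -/
def redM {n : ℕ} (B : Matrix (Fin (n + 1)) (Fin (n + 1)) ℕ) : Matrix (Fin n) (Fin n) ℕ :=
  Matrix.of fun i j => if i = j then B i.castSucc j.castSucc + B i.castSucc (Fin.last n)
    else B i.castSucc j.castSucc

lemma redM_apply {n : ℕ} (B : Matrix (Fin (n + 1)) (Fin (n + 1)) ℕ) (i j : Fin n) :
    redM B i j = if i = j then B i.castSucc j.castSucc + B i.castSucc (Fin.last n)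
    else B i.castSucc j.castSucc := rfl

lemma exists_of_isTesler {n : ℕ} {α : Fin (n + 1) → ℕ} {B : Matrix (Fin (n + 1)) (Fin (n + 1)) ℕ}
    (hB : IsTesler α B) : ∃ (A : Matrix (Fin n) (Fin n) ℕ) (b : Fin n → ℕ),
      IsTesler (fun i => α i.castSucc) A ∧ (∀ i, b i ≤ A i i) ∧
        extM (α (Fin.last n)) A b = B := by
  rw [isTesler_iff] at hB
  obtain ⟨h1, h2⟩ := hB
  refine ⟨redM B, fun i => B i.castSucc (Fin.last n), ?_, ?_, ?_⟩
  · rw [isTesler_iff]
    refine ⟨?_, ?_⟩
    · intro i j hij
      rw [redM_apply, if_neg (ne_of_gt hij)]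
      exact h1 _ _ (by simpa using hij)
    · intro i
      have h3 := h2 i.castSucc
      rw [Fin.sum_univ_castSucc, Fin.sum_univ_castSucc] at h3
      have e1 : (∑ j : Fin n, if i ≤ j then (if i = j then B i.castSucc j.castSucc +
          B i.castSucc (Fin.last n) else B i.castSucc j.castSucc) else 0) =
          (∑ j : Fin n, if i.castSucc ≤ j.castSucc then B i.castSucc j.castSucc else 0) +
            B i.castSucc (Fin.last n) := by
        rw [← Finset.add_sum_erase Finset.univ _ (Finset.mem_univ i),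
          ← Finset.add_sum_erase Finset.univ (fun j => if i.castSucc ≤ j.castSucc then
            B i.castSucc j.castSucc else 0) (Finset.mem_univ i)]
        have e3 : ∑ j ∈ Finset.univ.erase i, (if i ≤ j then (if i = j then B i.castSucc j.castSucc +
          B i.castSucc (Fin.last n) else B i.castSucc j.castSucc) else 0) =
          ∑ j ∈ Finset.univ.erase i, (if i.castSucc ≤ j.castSucc then
            B i.castSucc j.castSucc else 0) := by
          apply Finset.sum_congr rfl
          intro j hj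
          have hne : i ≠ j := (Finset.ne_of_mem_erase hj).symm
          simp [hne]
        rw [e3]
        simp only [le_refl, if_true]
        omega
      have e2 : (∑ j : Fin n, if j < i then (if j = i then B j.castSucc i.castSucc +
          B j.castSucc (Fin.last n) else B j.castSucc i.castSucc) else 0) =
          ∑ j : Fin n, if j.castSucc < i.castSucc then B j.castSucc i.castSucc else 0 := by
        apply Finset.sum_congr rfl
        intro j _
        by_cases hji : j < i
        · simp [hji, ne_of_lt hji]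
        · simp [hji]
      have e4 : ¬ (Fin.last n < i.castSucc) := by simp [Fin.le_last]
      have e5 : i.castSucc ≤ Fin.last n := Fin.le_last _
      rw [if_neg e4, if_pos e5] at h3
      simp only [redM_apply]
      rw [e1, e2, h3]
      simp
  · intro i
    simp [redM_apply]
  · ext i j
    induction i using Fin.lastCases with
    | last =>
      induction j using Fin.lastCases with
      | last =>
        have h3 := h2 (Fin.last n)
        rw [Fin.sum_univ_castSucc, Fin.sum_univ_castSucc] at h3
        simp only [Fin.castSucc_lt_last, if_true, lt_irrefl, if_false, le_refl, add_zero] at h3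
        have e6 : (∑ j : Fin n, if Fin.last n ≤ j.castSucc then B (Fin.last n) j.castSucc else 0)
            = 0 := by
          apply Finset.sum_eq_zero
          intro j _
          rw [if_neg (not_le.mpr (Fin.castSucc_lt_last j))]
        rw [extM_ll]
        omega
      | cast j => rw [extM_lc, h1 _ _ (Fin.castSucc_lt_last j)]
    | cast i =>
      induction j using Fin.lastCases with
      | last => rw [extM_cl]
      | cast j =>
        rw [extM_cc, redM_apply]
        by_cases hij : i = j
        · subst hij; simp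
        · simp [hij]

lemma extM_inj {n : ℕ} {c : ℕ} {A A' : Matrix (Fin n) (Fin n) ℕ} {b b' : Fin n → ℕ}
    (hb : ∀ i, b i ≤ A i i) (hb' : ∀ i, b' i ≤ A' i i) (h : extM c A b = extM c A' b') :
    A = A' ∧ b = b' := by
  have h1 : b = b' := by
    funext i
    have := congrFun (congrFun h i.castSucc) (Fin.last n)
    simpa using this
  subst h1
  refine ⟨?_, rfl⟩
  ext i j
  have h2 := congrFun (congrFun h i.castSucc) j.castSucc
  rw [extM_cc, extM_cc] at h2
  by_cases hij : i = j
  · subst hij
    have h3 := hb i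
    have h4 := hb' i
    simp only [if_true] at h2
    omega
  · simpa [hij] using h2

open Classical in
/-- The finite set of Tesler matrices, built recursively. -/
noncomputable def TS : (n : ℕ) → (Fin n → ℕ) → Finset (Matrix (Fin n) (Fin n) ℕ)
  | 0, _ => {0}
  | n + 1, α => ((TS n fun i => α i.castSucc).sigma fun A =>
      Fintype.piFinset fun i => Finset.range (A i i + 1)).image
        fun p => extM (α (Fin.last n)) p.1 p.2

lemma mem_TS : ∀ (n : ℕ) (α : Fin n → ℕ) (A : Matrix (Fin n) (Fin n) ℕ),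
    A ∈ TS n α ↔ IsTesler α A
  | 0, α, A => by
      simp only [TS, Finset.mem_singleton]
      constructor
      · rintro rfl
        exact ⟨fun i => i.elim0, fun i => i.elim0⟩
      · intro _
        ext i
        exact i.elim0
  | n + 1, α, A => by
      simp only [TS, Finset.mem_image, Finset.mem_sigma, Fintype.mem_piFinset, Finset.mem_range,
        Nat.lt_succ_iff]
      constructor
      · rintro ⟨⟨A', b⟩, ⟨h1, h2⟩, rfl⟩
        exact extM_isTesler ((mem_TS n _ A').mp h1) h2
      · intro hA
        obtain ⟨A', b, h1, h2, h3⟩ := exists_of_isTesler hA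
        exact ⟨⟨A', b⟩, ⟨(mem_TS n _ A').mpr h1, h2⟩, h3⟩

/-- Sum of a function of the diagonal over all Tesler matrices. -/
noncomputable def W (n : ℕ) (α : Fin n → ℕ) (F : (Fin n → ℕ) → ℕ) : ℕ :=
  ∑ A ∈ TS n α, F (fun i => A i i)

lemma T_eq_W {n : ℕ} (α : Fin n → ℕ) : T α = W n α (fun _ => 1) := by
  have h1 : {A | IsTesler α A} = (TS n α : Set (Matrix (Fin n) (Fin n) ℕ)) := by
    ext A
    simp [mem_TS]
  rw [T, h1, Set.ncard_coe_finset, W]
  simp

lemma W_succ (n : ℕ) (α : Fin (n + 1) → ℕ) (F : (Fin (n + 1) → ℕ) → ℕ) :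
    W (n + 1) α F = W n (fun i => α i.castSucc) (fun a =>
      ∑ b ∈ Fintype.piFinset fun i => Finset.range (a i + 1),
        F (Fin.snoc (α := fun _ => ℕ) (fun i => a i - b i) (α (Fin.last n) + ∑ i, b i))) := by
  classical
  unfold W
  rw [TS, Finset.sum_image, Finset.sum_sigma]
  · apply Finset.sum_congr rfl
    intro A _
    apply Finset.sum_congr rfl
    intro b _
    congr 1
    funext i
    induction i using Fin.lastCases with
    | last => simp
    | cast i => simp
  · rintro ⟨A, b⟩ hp ⟨A', b'⟩ hp' h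
    simp only [Finset.coe_sigma, Set.mem_sigma_iff, Finset.mem_coe, Fintype.mem_piFinset,
      Finset.mem_range, Nat.lt_succ_iff] at hp hp'
    obtain ⟨h1, h2⟩ := extM_inj hp.2 hp'.2 h
    subst h1; subst h2
    rfl

lemma diag_sum : ∀ (n : ℕ) (α : Fin n → ℕ) (A : Matrix (Fin n) (Fin n) ℕ),
    A ∈ TS n α → ∑ i, A i i = ∑ i, α i
  | 0, α, A => by simp
  | n + 1, α, A => by
      intro hA
      simp only [TS, Finset.mem_image, Finset.mem_sigma, Fintype.mem_piFinset, Finset.mem_range,
        Nat.lt_succ_iff] at hA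
      obtain ⟨⟨A', b⟩, ⟨h1, h2⟩, rfl⟩ := hA
      have ih := diag_sum n _ A' h1
      rw [Fin.sum_univ_castSucc, Fin.sum_univ_castSucc]
      simp only [extM_cc, if_true, extM_ll]
      have h3 : ∑ i, (A' i i - b i) + ∑ i, b i = ∑ i, A' i i := by
        rw [← Finset.sum_add_distrib]
        apply Finset.sum_congr rfl
        intro i _
        have := h2 i
        dsimp only at this
        omega
      omega

lemma W_mono {n : ℕ} {α : Fin n → ℕ} {F G : (Fin n → ℕ) → ℕ}
    (h : ∀ a : Fin n → ℕ, ∑ i, a i = ∑ i, α i → F a ≤ G a) : W n α F ≤ W n α G := by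
  apply Finset.sum_le_sum
  intro A hA
  exact h _ (diag_sum n α A hA)

lemma W_mul {n : ℕ} {α : Fin n → ℕ} {F : (Fin n → ℕ) → ℕ} (c : ℕ) :
    W n α (fun a => c * F a) = c * W n α F := by
  unfold W
  rw [Finset.mul_sum]

/-! ### Sums over the choices of the last column -/

/-- The box of the vectors `b ≤ a`. -/
abbrev box {n : ℕ} (a : Fin n → ℕ) : Finset (Fin n → ℕ) :=
  Fintype.piFinset fun i => Finset.range (a i + 1)

def P1 {n : ℕ} (a : Fin n → ℕ) : ℕ := ∏ i, (a i + 1)
def P2 {n : ℕ} (a : Fin n → ℕ) : ℕ := ∏ i, (a i + 1) * (a i + 2) / 2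

lemma card_box {n : ℕ} (a : Fin n → ℕ) : ∑ _b ∈ box a, 1 = P1 a := by
  simp [box, P1, Fintype.card_piFinset]

lemma T_succ (n : ℕ) (α : Fin (n + 1) → ℕ) : T α = W n (fun i => α i.castSucc) P1 := by
  rw [T_eq_W, W_succ]
  congr 1
  funext a
  exact card_box a

lemma two_dvd (a : ℕ) : 2 ∣ (a + 1) * (a + 2) := by
  rcases Nat.even_or_odd a with h | h
  · exact Dvd.dvd.mul_left (by obtain ⟨k, hk⟩ := h; omega) _
  · exact Dvd.dvd.mul_right (by obtain ⟨k, hk⟩ := h; omega) _

lemma two_mul_half (a : ℕ) : 2 * ((a + 1) * (a + 2) / 2) = (a + 1) * (a + 2) :=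
  Nat.mul_div_cancel' (two_dvd a)

lemma sum_single (a : ℕ) : ∑ y ∈ Finset.range (a + 1), (a - y + 1) = (a + 1) * (a + 2) / 2 := by
  have h1 : ∑ y ∈ Finset.range (a + 1), (a - y + 1) = ∑ y ∈ Finset.range (a + 1), (y + 1) :=
    Finset.sum_flip (fun t => t + 1)
  have h2 : 2 * ∑ y ∈ Finset.range (a + 1), (y + 1) = (a + 1) * (a + 2) := by
    clear h1
    induction a with
    | zero => simp
    | succ a ih => rw [Finset.sum_range_succ, Nat.mul_add, ih]; ring
  rw [h1]
  have := two_mul_half a
  omega

lemma sum_weighted (a : ℕ) : 3 * ∑ y ∈ Finset.range (a + 1), y * (a - y + 1) =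
    a * ((a + 1) * (a + 2) / 2) := by
  have h2 : ∀ a : ℕ, 2 * ∑ y ∈ Finset.range (a + 1), y = a * (a + 1) := by
    intro a
    induction a with
    | zero => simp
    | succ a ih => rw [Finset.sum_range_succ, Nat.mul_add, ih]; ring
  have h3 : ∀ a : ℕ, 6 * ∑ y ∈ Finset.range (a + 1), y * (a - y + 1) = a * (a + 1) * (a + 2) := by
    intro a
    induction a with
    | zero => simp
    | succ a ih =>
      rw [Finset.sum_range_succ]
      have e1 : ∑ y ∈ Finset.range (a + 1), y * (a + 1 - y + 1) =
          ∑ y ∈ Finset.range (a + 1), y * (a - y + 1) + ∑ y ∈ Finset.range (a + 1), y := by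
        rw [← Finset.sum_add_distrib]
        apply Finset.sum_congr rfl
        intro y hy
        rw [Finset.mem_range] at hy
        have : a + 1 - y + 1 = (a - y + 1) + 1 := by omega
        rw [this]; ring
      rw [e1]
      have := h2 a
      have e2 : (a + 1) * (a + 1 - (a + 1) + 1) = a + 1 := by simp
      rw [e2]
      nlinarith
  have h4 := h3 a
  have h5 := two_mul_half a
  have h6 : 2 * (a * ((a + 1) * (a + 2) / 2)) = a * (a + 1) * (a + 2) := by
    calc 2 * (a * ((a + 1) * (a + 2) / 2)) = a * (2 * ((a + 1) * (a + 2) / 2)) := by ring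
      _ = a * (a + 1) * (a + 2) := by rw [h5]; ring
  omega

lemma sum_box_one {n : ℕ} (a : Fin n → ℕ) :
    ∑ b ∈ box a, ∏ i, (a i - b i + 1) = P2 a := by
  unfold box P2
  rw [← Finset.prod_univ_sum (fun i => Finset.range (a i + 1)) (fun i y => a i - y + 1)]
  exact Finset.prod_congr rfl fun i _ => sum_single (a i)

lemma sum_box_coord {n : ℕ} (a : Fin n → ℕ) (j : Fin n) :
    3 * ∑ b ∈ box a, b j * ∏ i, (a i - b i + 1) = a j * P2 a := by
  have h1 : ∑ b ∈ box a, b j * ∏ i, (a i - b i + 1) =
      ∑ b ∈ box a, ∏ i, (if i = j then b i * (a i - b i + 1) else (a i - b i + 1)) := by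
    apply Finset.sum_congr rfl
    intro b _
    rw [← Finset.mul_prod_erase Finset.univ (fun i => a i - b i + 1) (Finset.mem_univ j),
      ← Finset.mul_prod_erase Finset.univ
        (fun i => if i = j then b i * (a i - b i + 1) else (a i - b i + 1)) (Finset.mem_univ j)]
    have h2 : ∏ i ∈ Finset.univ.erase j,
        (if i = j then b i * (a i - b i + 1) else (a i - b i + 1)) =
        ∏ i ∈ Finset.univ.erase j, (a i - b i + 1) := by
      apply Finset.prod_congr rfl
      intro i hi
      rw [if_neg (Finset.ne_of_mem_erase hi)]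
    rw [h2]
    simp only [if_true]
    ring
  rw [h1]
  unfold box P2
  rw [← Finset.prod_univ_sum (fun i => Finset.range (a i + 1))
    (fun i y => if i = j then y * (a i - y + 1) else (a i - y + 1))]
  rw [← Finset.mul_prod_erase Finset.univ (fun i => (a i + 1) * (a i + 2) / 2) (Finset.mem_univ j),
    ← Finset.mul_prod_erase Finset.univ
      (fun i => ∑ y ∈ Finset.range (a i + 1),
        (if i = j then y * (a i - y + 1) else (a i - y + 1))) (Finset.mem_univ j)]
  have h2 : ∏ i ∈ Finset.univ.erase j, (∑ y ∈ Finset.range (a i + 1),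
        (if i = j then y * (a i - y + 1) else (a i - y + 1))) =
      ∏ i ∈ Finset.univ.erase j, ((a i + 1) * (a i + 2) / 2) := by
    apply Finset.prod_congr rfl
    intro i hi
    rw [← sum_single (a i)]
    apply Finset.sum_congr rfl
    intro y _
    rw [if_neg (Finset.ne_of_mem_erase hi)]
  rw [h2]
  simp only [if_true]
  rw [← mul_assoc, sum_weighted, mul_assoc]

lemma sum_box_two {n : ℕ} (a : Fin n → ℕ) :
    3 * ∑ b ∈ box a, (∏ i, (a i - b i + 1)) * (1 + ∑ i, b i + 1) = (6 + ∑ i, a i) * P2 a := by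
  have h1 : ∑ b ∈ box a, (∏ i, (a i - b i + 1)) * (1 + ∑ i, b i + 1) =
      2 * ∑ b ∈ box a, (∏ i, (a i - b i + 1)) +
        ∑ j, ∑ b ∈ box a, b j * ∏ i, (a i - b i + 1) := by
    rw [Finset.sum_comm, Finset.mul_sum, ← Finset.sum_add_distrib]
    apply Finset.sum_congr rfl
    intro b _
    rw [← Finset.sum_mul]
    ring
  have h2 : 3 * ∑ j, ∑ b ∈ box a, b j * ∏ i, (a i - b i + 1) = (∑ j, a j) * P2 a := by
    rw [Finset.mul_sum, Finset.sum_mul]
    exact Finset.sum_congr rfl fun j _ => sum_box_coord a j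
  rw [h1, Nat.mul_add, h2, sum_box_one]
  ring

lemma P1_ge {n : ℕ} (a : Fin n → ℕ) : 1 + ∑ i, a i ≤ P1 a := by
  unfold P1
  have : ∀ s : Finset (Fin n), 1 + ∑ i ∈ s, a i ≤ ∏ i ∈ s, (a i + 1) := by
    intro s
    induction s using Finset.induction_on with
    | empty => simp
    | insert j s hj ih =>
      rw [Finset.sum_insert hj, Finset.prod_insert hj]
      nlinarith [Nat.zero_le (a j), Nat.zero_le (∑ i ∈ s, a i)]
  exact this _

lemma P2_ge {n : ℕ} (a : Fin n → ℕ) : (2 + ∑ i, a i) * P1 a ≤ 2 * P2 a := by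
  unfold P1 P2
  have : ∀ s : Finset (Fin n), (2 + ∑ i ∈ s, a i) * ∏ i ∈ s, (a i + 1) ≤
      2 * ∏ i ∈ s, ((a i + 1) * (a i + 2) / 2) := by
    intro s
    induction s using Finset.induction_on with
    | empty => simp
    | insert j s hj ih =>
      rw [Finset.sum_insert hj, Finset.prod_insert hj, Finset.prod_insert hj]
      set S := ∑ i ∈ s, a i with hS
      set P := ∏ i ∈ s, (a i + 1) with hP
      set Q := ∏ i ∈ s, ((a i + 1) * (a i + 2) / 2) with hQ
      have h1 := two_mul_half (a j)
      set H := (a j + 1) * (a j + 2) / 2 with hH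
      have h2 : 2 * ((2 + (a j + S)) * ((a j + 1) * P)) ≤ 2 * (2 * (H * Q)) := by
        calc 2 * ((2 + (a j + S)) * ((a j + 1) * P))
            = (2 * (2 + (a j + S))) * ((a j + 1) * P) := by ring
          _ ≤ ((2 + S) * (a j + 2)) * ((a j + 1) * P) := by
              apply Nat.mul_le_mul_right
              nlinarith [Nat.zero_le (a j * S)]
          _ = ((a j + 1) * (a j + 2)) * ((2 + S) * P) := by ring
          _ ≤ ((a j + 1) * (a j + 2)) * (2 * Q) := Nat.mul_le_mul_left _ ih
          _ = (2 * H) * (2 * Q) := by rw [h1]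
          _ = 2 * (2 * (H * Q)) := by ring
      omega
  exact this _

/-- all-ones vector -/
abbrev ones (n : ℕ) : Fin n → ℕ := fun _ => 1

lemma T_ones_add_two (n : ℕ) :
    3 * T (ones (n + 2)) = (6 + n) * W n (ones n) P2 := by
  rw [T_succ]
  change 3 * W (n + 1) (ones (n + 1)) P1 = _
  rw [W_succ, ← W_mul, ← W_mul]
  unfold W
  apply Finset.sum_congr rfl
  intro A hA
  have h1 := diag_sum n _ A hA
  have h2 : ∑ i : Fin n, (fun i : Fin n => ones (n + 1) i.castSucc) i = n := by simp
  rw [h2] at h1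
  have h3 := sum_box_two (fun i => A i i)
  rw [h1] at h3
  have h4 : ∑ b ∈ box (fun i => A i i), P1 (Fin.snoc (α := fun _ => ℕ) (fun i => A i i - b i)
      (ones (n + 1) (Fin.last n) + ∑ i, b i)) =
      ∑ b ∈ box (fun i => A i i), (∏ i, (A i i - b i + 1)) * (1 + ∑ i, b i + 1) := by
    apply Finset.sum_congr rfl
    intro b _
    unfold P1
    rw [Fin.prod_univ_castSucc]
    simp
  rw [← h4] at h3
  exact h3

lemma T_step (n : ℕ) :
    (n + 6) * (n + 2) * T (ones (n + 1)) ≤ 6 * T (ones (n + 2)) := by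
  have h1 := T_ones_add_two n
  have h2 : (n + 2) * W n (ones n) P1 ≤ 2 * W n (ones n) P2 := by
    rw [← W_mul, ← W_mul]
    apply W_mono
    intro a ha
    have h3 := P2_ge a
    have h4 : ∑ i : Fin n, ones n i = n := by simp
    rw [ha, h4] at h3
    rw [add_comm n 2]
    exact h3
  have h5 : T (ones (n + 1)) = W n (ones n) P1 := T_succ n _
  rw [h5]
  calc (n + 6) * (n + 2) * W n (ones n) P1 = (n + 6) * ((n + 2) * W n (ones n) P1) := by ring
    _ ≤ (n + 6) * (2 * W n (ones n) P2) := Nat.mul_le_mul_left _ h2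
    _ = 2 * ((6 + n) * W n (ones n) P2) := by ring
    _ = 2 * (3 * T (ones (n + 2))) := by rw [h1]
    _ = 6 * T (ones (n + 2)) := by ring

/-! ### The base case by kernel computation -/

/-- `sumTo f x = f 0 + ... + f x`. -/
def sumTo (f : ℕ → ℕ) (x : ℕ) : ℕ := Nat.rec (f 0) (fun k ih => ih + f (k + 1)) x

lemma sumTo_eq (f : ℕ → ℕ) (x : ℕ) : sumTo f x = ∑ y ∈ Finset.range (x + 1), f y := by
  induction x with
  | zero => simp [sumTo]
  | succ x ih => rw [Finset.sum_range_succ, ← ih]; rfl

/-- Sum of `k (∑ y) (l - y)` over all `y ≤ l`. -/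
def stp : List ℕ → (ℕ → List ℕ → ℕ) → ℕ
  | [], k => k 0 []
  | x :: l, k => sumTo (fun y => stp l fun s t => k (s + y) ((x - y) :: t)) x

def Fw : List ℕ → ℕ
  | [] => 1
  | a :: l => (a + 1) * (a + 2) / 2 * Fw l

def WW : (List ℕ → ℕ) → ℕ → ℕ
  | F, 0 => F []
  | F, n + 1 => WW (fun l => stp l fun s t => F ((1 + s) :: t)) n

/-- The entries of a vector, last one first. -/
def toL : (n : ℕ) → (Fin n → ℕ) → List ℕ
  | 0, _ => []
  | n + 1, a => a (Fin.last n) :: toL n fun i => a i.castSucc

lemma sum_box_succ {n : ℕ} (a : Fin (n + 1) → ℕ) (G : (Fin (n + 1) → ℕ) → ℕ) :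
    ∑ b ∈ box a, G b = ∑ y ∈ Finset.range (a (Fin.last n) + 1),
      ∑ b ∈ box (fun i => a i.castSucc), G (Fin.snoc (α := fun _ => ℕ) b y) := by
  rw [← Finset.sum_product']
  symm
  apply Finset.sum_nbij' (fun p => Fin.snoc (α := fun _ => ℕ) p.2 p.1)
    (fun b => (b (Fin.last n), fun i => b i.castSucc))
  · rintro ⟨y, b⟩ h
    simp only [Finset.mem_product, Fintype.mem_piFinset, Finset.mem_range] at h ⊢
    intro i
    induction i using Fin.lastCases with
    | last => simpa using h.1
    | cast i => simpa using h.2 i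
  · intro b h
    simp only [Finset.mem_product, Fintype.mem_piFinset, Finset.mem_range] at h ⊢
    exact ⟨h _, fun i => h _⟩
  · rintro ⟨y, b⟩ _
    simp
  · intro b _
    funext i
    induction i using Fin.lastCases with
    | last => simp
    | cast i => simp
  · rintro ⟨y, b⟩ _
    rfl

lemma stp_eq : ∀ (n : ℕ) (a : Fin n → ℕ) (k : ℕ → List ℕ → ℕ),
    stp (toL n a) k = ∑ b ∈ box a, k (∑ i, b i) (toL n fun i => a i - b i)
  | 0, a, k => by simp [toL, stp, box]
  | n + 1, a, k => by
      rw [sum_box_succ, toL, stp, sumTo_eq]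
      apply Finset.sum_congr rfl
      intro y _
      rw [stp_eq n]
      apply Finset.sum_congr rfl
      intro b _
      rw [Fin.sum_univ_castSucc, toL]
      simp

lemma Fw_eq : ∀ (n : ℕ) (a : Fin n → ℕ), Fw (toL n a) = P2 a
  | 0, a => by simp [toL, Fw, P2]
  | n + 1, a => by
      rw [toL, Fw, Fw_eq n]
      unfold P2
      rw [Fin.prod_univ_castSucc, mul_comm]

/-- A faster way to evaluate the last step. -/
def inner : List ℕ → ℕ → ℕ
  | [], s => (s + 2) * (s + 3) / 2
  | x :: l, s => sumTo (fun y => (x - y + 1) * (x - y + 2) / 2 * inner l (s + y)) x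

lemma inner_eq : ∀ (l : List ℕ) (s₀ : ℕ) (c : ℕ),
    stp l (fun s t => c * Fw ((1 + (s₀ + s)) :: t)) = c * inner l s₀
  | [], s₀, c => by
      simp only [stp, Fw, inner, mul_one, add_zero]
      congr 3 <;> ring
  | x :: l, s₀, c => by
      rw [stp, inner, sumTo_eq, sumTo_eq, Finset.mul_sum]
      apply Finset.sum_congr rfl
      intro y _
      rw [← mul_assoc, ← inner_eq l]
      congr 1
      funext s t
      simp only [Fw]
      have : 1 + (s₀ + (s + y)) = 1 + (s₀ + y + s) := by ring
      rw [this]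
      ring

lemma WW_eq : ∀ (n : ℕ) (F : List ℕ → ℕ), W n (ones n) (fun a => F (toL n a)) = WW F n
  | 0, F => by simp [W, TS, WW, toL]
  | n + 1, F => by
      rw [W_succ, WW, ← WW_eq n]
      congr 1
      funext a
      rw [stp_eq]
      apply Finset.sum_congr rfl
      intro b _
      rw [toL]
      simp

lemma base6 : 22268000 ≤ WW (fun l => inner l 0) 6 := by decide +kernel

lemma base7 : 22268000 ≤ WW Fw 7 := by
  have h1 : WW Fw 7 = WW (fun l => inner l 0) 6 := by
    have h3 : (fun l => stp l fun s t => Fw ((1 + s) :: t)) = fun l => inner l 0 := by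
      funext l
      have h2 := inner_eq l 0 1
      simpa using h2
    rw [WW, h3]
  rw [h1]
  exact base6

lemma T_nine : 96494600 ≤ T (ones 9) := by
  have h1 := T_ones_add_two 7
  have h2 : W 7 (ones 7) P2 = WW Fw 7 := by
    rw [← WW_eq 7 Fw]
    congr 1
    funext a
    exact (Fw_eq 7 a).symm
  have h3 := base7
  rw [← h2] at h3
  have h4 : T (ones (7 + 2)) = T (ones 9) := rfl
  rw [h4] at h1
  clear h2
  generalize W 7 (ones 7) P2 = w at h1 h3
  generalize T (ones 9) = t at h1 ⊢
  omega

lemma T_eleven : 12 ^ 10 ≤ T (ones 11) := by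
  have h1 := T_nine
  have h2 : (8 + 6) * (8 + 2) * T (ones 9) ≤ 6 * T (ones 10) := T_step 8
  have h3 : (9 + 6) * (9 + 2) * T (ones 10) ≤ 6 * T (ones 11) := T_step 9
  omega

lemma growth (m : ℕ) (hm : 11 ≤ m) : 6 * (m + 2) ^ m ≤ (m + 5) * (m + 1) ^ m := by
  rcases Nat.eq_or_lt_of_le hm with h | h
  · subst h; norm_num
  · have h0 : (0 : ℝ) < (m : ℝ) + 1 := by positivity
    have h1 : ((m : ℝ) + 2) ^ m ≤ Real.exp 1 * ((m : ℝ) + 1) ^ m := by
      have h2 : ((m : ℝ) + 2) = (1 + 1 / ((m : ℝ) + 1)) * ((m : ℝ) + 1) := by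
        field_simp; ring
      have h3 : (1 + 1 / ((m : ℝ) + 1)) ^ m ≤ Real.exp 1 := by
        have h4 : 1 + 1 / ((m : ℝ) + 1) ≤ Real.exp (1 / ((m : ℝ) + 1)) := by
          have := Real.add_one_le_exp (1 / ((m : ℝ) + 1))
          linarith
        calc (1 + 1 / ((m : ℝ) + 1)) ^ m ≤ Real.exp (1 / ((m : ℝ) + 1)) ^ m := by
              gcongr
          _ = Real.exp (m * (1 / ((m : ℝ) + 1))) := by rw [← Real.exp_nat_mul]
          _ ≤ Real.exp 1 := by
              apply Real.exp_le_exp.mpr
              rw [mul_one_div, div_le_one h0]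
              linarith
      calc ((m : ℝ) + 2) ^ m = (1 + 1 / ((m : ℝ) + 1)) ^ m * ((m : ℝ) + 1) ^ m := by
            rw [h2, mul_pow]
        _ ≤ Real.exp 1 * ((m : ℝ) + 1) ^ m := by gcongr
    have h2 : Real.exp 1 < 2.7182818286 := Real.exp_one_lt_d9
    have h3 : (12 : ℝ) ≤ m := by exact_mod_cast h
    have h4 : 6 * ((m : ℝ) + 2) ^ m ≤ ((m : ℝ) + 5) * ((m : ℝ) + 1) ^ m := by
      have h5 : 6 * Real.exp 1 ≤ (m : ℝ) + 5 := by linarith
      calc 6 * ((m : ℝ) + 2) ^ m ≤ 6 * (Real.exp 1 * ((m : ℝ) + 1) ^ m) := by gcongr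
        _ = (6 * Real.exp 1) * ((m : ℝ) + 1) ^ m := by ring
        _ ≤ ((m : ℝ) + 5) * ((m : ℝ) + 1) ^ m := by gcongr
    exact_mod_cast h4

lemma T_ones_ge (m : ℕ) (hm : 11 ≤ m) : (m + 1) ^ (m - 1) ≤ T (ones m) := by
  induction m, hm using Nat.le_induction with
  | base => simpa using T_eleven
  | succ m hm ih =>
    obtain ⟨n, rfl⟩ : ∃ n, m = n + 1 := ⟨m - 1, by omega⟩
    have h1 := T_step n
    have h2 := growth (n + 1) hm
    simp only [Nat.add_sub_cancel] at ih ⊢
    have h3 : (n + 6) * (n + 2) * (n + 1 + 1) ^ n ≤ 6 * T (ones (n + 2)) :=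
      (Nat.mul_le_mul_left _ ih).trans h1
    have h4 : (n + 6) * (n + 2) * (n + 1 + 1) ^ n = (n + 1 + 5) * (n + 1 + 1) ^ (n + 1) := by
      rw [pow_succ]; ring
    rw [h4] at h3
    have h5 : 6 * (n + 1 + 2) ^ (n + 1) ≤ 6 * T (ones (n + 2)) := h2.trans h3
    have h6 : (n + 1 + 2) ^ (n + 1) ≤ T (ones (n + 2)) := by omega
    exact h6

/-- **Q1 holds.** -/
theorem result : ∀ n k : ℕ, 11 ≤ k → k ≤ n →
    (k + 1) ^ (n - 1) ≤ T (fun i : Fin n => if (i : ℕ) < k then 1 else 0) := by
  intro n k hk hkn
  induction n, hkn using Nat.le_induction with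
  | base =>
    have h1 : (fun i : Fin k => if (i : ℕ) < k then 1 else 0) = ones k := by
      funext i
      simp [i.2]
    rw [h1]
    exact T_ones_ge k hk
  | succ n hn ih =>
    rw [T_succ]
    have h1 : (fun i : Fin n => (fun i : Fin (n + 1) => if (i : ℕ) < k then 1 else 0) i.castSucc) =
        fun i : Fin n => if (i : ℕ) < k then 1 else 0 := by
      funext i; simp
    rw [h1]
    have h2 : ∑ i : Fin n, (if (i : ℕ) < k then 1 else 0) = k := by
      rw [Fin.sum_univ_eq_sum_range (fun i => if i < k then 1 else 0), Finset.sum_ite]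
      have : Finset.filter (fun i => i < k) (Finset.range n) = Finset.range k := by
        ext i
        simp only [Finset.mem_filter, Finset.mem_range]
        omega
      rw [this]
      simp
    have h3 : (k + 1) * W n (fun i : Fin n => if (i : ℕ) < k then 1 else 0) (fun _ => 1) ≤
        W n (fun i : Fin n => if (i : ℕ) < k then 1 else 0) P1 := by
      rw [← W_mul]
      apply W_mono
      intro a ha
      have h4 := P1_ge a
      rw [ha, h2] at h4
      omega
    rw [← T_eq_W] at h3
    refine le_trans ?_ h3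
    have h5 : n + 1 - 1 = (n - 1) + 1 := by omega
    rw [h5, pow_succ, mul_comm]
    exact Nat.mul_le_mul_left _ ih

end Pool.Agent.Results.MP_1235ca_co.FullAnswer
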